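import Pool.Agent.Helper71.SN.Goals

/-!
# QINF: the four-point property of the points in `ℓ_∞`
-/

namespace Pool.Agent.Helper71.SN.PkQINF

open Pool.Agent.Helper71.SN Pool.Agent.Helper39.Net

/-- Half of the sum of the first two differences. -/
noncomputable def w {k : ℕ} (z z' : Pt (k + 2)) : ℝ := (((z' 0 : ℝ) - z 0) + ((z' 1 : ℝ) - z 1)) / 2

theorem fin_cases3 {k : ℕ} (c : Fin (k + 2)) : c = 0 ∨ c = 1 ∨ (c.val ≠ 0 ∧ c.val ≠ 1) := by
  by_cases h0 : c.val = 0
  · left; exact Fin.ext h0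
  · by_cases h1 : c.val = 1
    · right; left; exact Fin.ext (by rw [h1]; rfl)
    · right; right; exact ⟨h0, h1⟩

theorem comp0 {k : ℕ} (B : ℕ) (z z' : Pt (k + 2)) : (qInf k B z - qInf k B z') 0 = -(w z z') := by
  simp only [Pi.sub_apply, qInf, w, Fin.val_zero, if_true]
  ring

theorem comp1 {k : ℕ} (B : ℕ) (z z' : Pt (k + 2)) :
    (qInf k B z - qInf k B z') 1 = -(w z z' - ((z' 1 : ℝ) - z 1)) := by
  have h : ((1 : Fin (k + 2)) : ℕ) = 1 := rfl
  simp only [Pi.sub_apply, qInf, w, h, one_ne_zero, if_false, if_true]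
  ring

theorem compj {k : ℕ} (B : ℕ) (z z' : Pt (k + 2)) {c : Fin (k + 2)} (h0 : c.val ≠ 0)
    (h1 : c.val ≠ 1) : (qInf k B z - qInf k B z') c = -(w z z' - ((z' c : ℝ) - z c) / B) := by
  simp only [Pi.sub_apply, qInf, w, h0, h1, if_false]
  ring

theorem lower {k : ℕ} (B : ℕ) (z z' : Pt (k + 2)) : w z z' ≤ dInf (qInf k B z) (qInf k B z') := by
  have h := norm_le_pi_norm (qInf k B z - qInf k B z') 0
  rw [comp0, Real.norm_eq_abs, abs_neg] at h
  exact (le_abs_self _).trans h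

theorem lower' {k : ℕ} {B : ℕ} {z z' : Pt (k + 2)} {c : Fin (k + 2)} (hB : z c < B)
    (hc : z' c < z c) : w z z' + 1 / (B : ℝ) ≤ dInf (qInf k B z) (qInf k B z') := by
  have hB1 : (1 : ℝ) ≤ B := by exact_mod_cast (by omega : 1 ≤ B)
  have hB0 : (0 : ℝ) < B := by linarith
  have hB2 : 1 / (B : ℝ) ≤ 1 := by rw [div_le_one hB0]; exact hB1
  have hd : (z' c : ℝ) + 1 ≤ z c := by exact_mod_cast hc
  rcases fin_cases3 c with rfl | rfl | ⟨h0, h1⟩
  · have h := norm_le_pi_norm (qInf k B z - qInf k B z') 1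
    rw [comp1, Real.norm_eq_abs] at h
    refine le_trans ?_ ((le_abs_self _).trans h)
    unfold w
    linarith
  · have h := norm_le_pi_norm (qInf k B z - qInf k B z') 1
    rw [comp1, Real.norm_eq_abs, abs_neg] at h
    refine le_trans ?_ ((le_abs_self _).trans h)
    linarith
  · have h := norm_le_pi_norm (qInf k B z - qInf k B z') c
    rw [compj B z z' h0 h1, Real.norm_eq_abs, abs_neg] at h
    refine le_trans ?_ ((le_abs_self _).trans h)
    have : 1 / (B : ℝ) ≤ -(((z' c : ℝ) - z c) / B) := by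
      rw [← neg_div]
      exact div_le_div_of_nonneg_right (by linarith) hB0.le
    linarith

theorem upper {k : ℕ} {B : ℕ} {z z' : Pt (k + 2)} (hz' : ∀ c, z' c < B)
    (h : ∀ c, z c < z' c) : dInf (qInf k B z) (qInf k B z') ≤ w z z' := by
  have hr : ∀ c, (z c : ℝ) + 1 ≤ z' c := fun c => by exact_mod_cast h c
  have hw : 1 ≤ w z z' := by
    unfold w
    linarith [hr 0, hr 1]
  have hB0 : (0 : ℝ) < B := by
    have := hz' 0
    exact_mod_cast (by omega : 0 < B)
  unfold dInf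
  rw [pi_norm_le_iff_of_nonneg (by linarith)]
  intro c
  rcases fin_cases3 c with rfl | rfl | ⟨h0, h1⟩
  · rw [comp0, Real.norm_eq_abs, abs_neg, abs_of_nonneg (by linarith)]
  · rw [comp1, Real.norm_eq_abs, abs_neg, abs_le]
    unfold w
    constructor <;> linarith [hr 0, hr 1]
  · rw [compj B z z' h0 h1, Real.norm_eq_abs, abs_neg, abs_le]
    have g1 : 0 ≤ ((z' c : ℝ) - z c) / B := div_nonneg (by linarith [hr c]) hB0.le
    have g2 : ((z' c : ℝ) - z c) / B ≤ 1 := by
      rw [div_le_one hB0]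
      have : (z' c : ℝ) ≤ B := by exact_mod_cast (hz' c).le
      have g3 : (0 : ℝ) ≤ z c := Nat.cast_nonneg _
      linarith
    constructor <;> linarith

theorem upper' {k : ℕ} {B : ℕ} {z z' : Pt (k + 2)} (hz' : ∀ c, z' c < B)
    (h : z = z' ∨ ∀ c, z c < z' c) : dInf (qInf k B z) (qInf k B z') ≤ w z z' := by
  rcases h with rfl | h
  · rw [dInf_self]
    unfold w
    simp
  · exact upper hz' h

theorem w_le {k : ℕ} {B : ℕ} {z z' : Pt (k + 2)} (hz' : ∀ c, z' c < B) : w z z' ≤ B := by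
  have h0 : (z' 0 : ℝ) ≤ B := by exact_mod_cast (hz' 0).le
  have h1 : (z' 1 : ℝ) ≤ B := by exact_mod_cast (hz' 1).le
  have g0 : (0 : ℝ) ≤ z 0 := Nat.cast_nonneg _
  have g1 : (0 : ℝ) ≤ z 1 := Nat.cast_nonneg _
  unfold w
  linarith

theorem thm : G_QINF := by
  intro k B x y x' y' hx hy hx' hy'
  refine ⟨fun h => (upper' hy h).trans (w_le hy), fun h1 h2 h3 => ?_⟩
  have e1 := upper' hy h1
  have e2 := upper' hy' h2
  have e3 : w x y' + w x' y = w x y + w x' y' := by unfold w; ring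
  have f1 := lower B x y'
  have f2 := lower B x' y
  rw [not_and_or] at h3
  rcases h3 with h3 | h3
  · push Not at h3
    obtain ⟨c, hc⟩ := h3
    have := lower' (hx c) hc
    linarith
  · push Not at h3
    obtain ⟨c, hc⟩ := h3
    have := lower' (hx' c) hc
    linarith

end Pool.Agent.Helper71.SN.PkQINF
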